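import Pool.Agent.H41.Chr.Final

/-!
# MP_8666b3_co: the chromatic Ramsey numbers are exactly the positive integers
outside `{3, 4, 7, 8, 9}`
-/

namespace Pool.Agent.Results.MP_8666b3_co.RealizableIntegers

open Pool.Agent.H41.Chr

/-- A positive integer is the chromatic Ramsey number of some finite graph if and only if it is
not one of `3, 4, 7, 8, 9`. -/
theorem result : ∀ m : ℕ, 1 ≤ m →
    ((∃ (n : ℕ) (G : SimpleGraph (Fin n)), RChi G = m) ↔ m ∉ ({3, 4, 7, 8, 9} : Finset ℕ)) := by
  intro m hm
  constructor
  · rintro ⟨n, G, rfl⟩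
    obtain ⟨h3, h4, h7, h8, h9⟩ := Pool.Agent.H10.Chr.not_realizable G
    simp only [Finset.mem_insert, Finset.mem_singleton]
    omega
  · intro h
    simp only [Finset.mem_insert, Finset.mem_singleton] at h
    exact realizable m hm (by omega)

end Pool.Agent.Results.MP_8666b3_co.RealizableIntegers
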